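import Pool.Agent.H12.CSP.T7
import Pool.Agent.H12.CSP.B.TH610.CSP.Main

/-!
# Normal subgroups of `Out (F_n)` containing a transvection by a triple commutator

Let `n ≥ 4` and let `N` be a normal subgroup of finite index of `Aut (F_n)` which contains the inner
automorphisms (so `N` is the preimage of a normal subgroup of finite index of `Out (F_n)`). Let `T`
be the image of `IA_n` in `Aut (F_n) / N`. The theorem is a dichotomy.

* If `N` contains, for some distinct indices, the automorphism `x_i ↦ x_i [[x_j, x_k], x_l]` (all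
  other generators are fixed), then `N` contains all automorphisms acting trivially on
  `F_n / γ_4 (F_n)`, it is a congruence subgroup, and the order of `[T, T]` divides
  `(n + 1) ^ (n choose 2)`.
* Otherwise `[T, T]` has at least `2 ^ ((n - 3) (n - 1 choose 3))` elements.

There is no bound on the index of `N` or on the order of `T`. In particular `N` is a congruence
subgroup if `[T, T]` has fewer than `2 ^ ((n - 3) (n - 1 choose 3))` elements.

Steps of the proof. Let `q` be the projection onto `Aut (F_n) / N` and write `rr i w`, `cc i w` for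
the transvection `x_i ↦ x_i w` and the partial conjugation `x_i ↦ w⁻¹ x_i w`, `w` without `x_i`.
(1) If one transvection by a triple commutator is in `N`, then `q ∘ rr i` and `q ∘ cc i` have class
at most two, the elements `z j k = q (cc i [x_j, x_k])` do not depend on `i`, are centralised by
`q (IA_n)`, and `Aut (F_n)` acts on them through the exterior square of its action on `ℤ ^ n`.
McCool's relations and the fact that the inner automorphisms are in `N` give `z j k ^ (n + 1) = 1`.
(2) Modulo the inner automorphisms, an automorphism `α` acting trivially on `F_n / γ_3 (F_n)` is a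
product of conjugates of automorphisms `cc i [x_j, x_k]` (Magnus), and `q (α)` is determined by the
trace (contraction) of the class of `α` in `Hom (ℤ ^ n, γ_3 / γ_4)`, a two-tensor, modulo `n + 1`.
The inner automorphisms by elements of `γ_2` have traces divisible by `n + 1`. So `q (α) = 1` if `α`
acts trivially on `F_n / γ_4 (F_n)`; then `N` is a congruence subgroup by the theorem on Johnson
kernels (proved in Lean in `TH610.CSP`). (3) If no transvection by a triple commutator is in `N`,
then, for the words `g = ∏_k [h_k, x_k]`, where `h_k` is a product of commutators `[x_S, x_l]`,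
`l < k`, `x_S` an ordered product of letters `x_a`, `a < l`, the elements `q (rr i g)` are distinct;
and one can combine the words for the different `i`.
-/

set_option autoImplicit false

namespace Pool.Agent.Results.MP_181555_al.ClassThreeGap

open Pool.Agent
open scoped commutatorElement

/-- The group `IA_n` of the automorphisms of `F_n` acting trivially on the abelianisation. -/
def IAn (n : ℕ) : Subgroup (MulAut (FreeGroup (Fin n))) where
  carrier := {φ | ∀ x, Abelianization.of (φ x) = Abelianization.of x}
  mul_mem' := fun {a b} ha hb x => (ha (b x)).trans (hb x)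
  one_mem' := fun _ => rfl
  inv_mem' := fun {a} ha x => by
    have h := ha (a⁻¹ x)
    rw [MulAut.apply_inv_self] at h
    exact h.symm

/-- `φ` multiplies the `i`-th generator on the right by the triple commutator of the `j`-th, the
`k`-th and the `l`-th generator and fixes the other generators. -/
def IsTripleTransvection {n : ℕ} (i j k l : Fin n) (φ : MulAut (FreeGroup (Fin n))) : Prop :=
  φ (FreeGroup.of i) = FreeGroup.of i * ⁅⁅FreeGroup.of j, FreeGroup.of k⁆, FreeGroup.of l⁆ ∧
  ∀ m, m ≠ i → φ (FreeGroup.of m) = FreeGroup.of m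

/-- `N` contains a transvection by a triple commutator, with four distinct indices. -/
def ContainsTripleTransvection (n : ℕ) (N : Subgroup (MulAut (FreeGroup (Fin n)))) : Prop :=
  ∃ i j k l : Fin n, i ≠ j ∧ i ≠ k ∧ i ≠ l ∧ j ≠ k ∧ j ≠ l ∧ k ≠ l ∧
    ∃ φ ∈ N, IsTripleTransvection i j k l φ

/-- `N` is a congruence subgroup of `Out (F_n)`. -/
def IsCongruence (n : ℕ) (N : Subgroup (MulAut (FreeGroup (Fin n)))) : Prop :=
  ∃ K : Subgroup (FreeGroup (Fin n)), K.Characteristic ∧ K.FiniteIndex ∧
    ∀ ψ : MulAut (FreeGroup (Fin n)),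
      (∃ g : FreeGroup (Fin n), ∀ x : FreeGroup (Fin n), ψ x * (g * x * g⁻¹)⁻¹ ∈ K) → ψ ∈ N

/-- Let `n ≥ 4` and let `N` be a normal subgroup of finite index of `Aut (F_n)` containing the
inner automorphisms. (1) If the image of `[IA_n, IA_n]` in `Aut (F_n) / N` has fewer than
`2 ^ ((n - 3) (n - 1 choose 3))` elements, then `N` contains an automorphism
`x_i ↦ x_i [[x_j, x_k], x_l]` (`i`, `j`, `k`, `l` distinct, the other generators are fixed). (2) If
`N` contains such an automorphism, then the order of the image of `[IA_n, IA_n]` in `Aut (F_n) / N`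
divides `(n + 1) ^ (n choose 2)`, `N` contains all automorphisms acting trivially on
`F_n / γ_4 (F_n)`, and `N` is a congruence subgroup. -/
theorem result : ∀ n : ℕ, 4 ≤ n → ∀ N : Subgroup (MulAut (FreeGroup (Fin n))), N.Normal →
    N.FiniteIndex → (∀ g : FreeGroup (Fin n), MulAut.conj g ∈ N) →
    (N.relIndex ⁅IAn n, IAn n⁆ < 2 ^ ((n - 3) * (n - 1).choose 3) →
      ContainsTripleTransvection n N) ∧
    (ContainsTripleTransvection n N →
      N.relIndex ⁅IAn n, IAn n⁆ ∣ (n + 1) ^ n.choose 2 ∧
      (∀ ψ : MulAut (FreeGroup (Fin n)),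
        (∀ x, ψ x * x⁻¹ ∈ (⊤ : Subgroup (FreeGroup (Fin n))).lowerCentralSeries 3) → ψ ∈ N) ∧
      IsCongruence n N) := by
  intro n hn N hN hfi hinn
  have htr : ∀ {i j k l : Fin n}, i ≠ j → i ≠ k → i ≠ l → ∀ {φ : MulAut (FreeGroup (Fin n))},
      IsTripleTransvection i j k l φ ↔ φ = Helper460_OutF.rr i
        ⁅⁅FreeGroup.of j, FreeGroup.of k⁆, FreeGroup.of l⁆ := by
    intro i j k l hij hik hil φ
    constructor
    · rintro ⟨h1, h2⟩
      apply Helper460_OutF.aut_ext
      intro m
      by_cases hm : m = i
      · subst hm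
        rw [h1, Helper460_OutF.rr_self, map_commutatorElement, map_commutatorElement,
          Helper460_OutF.kil_ne hij.symm, Helper460_OutF.kil_ne hik.symm,
          Helper460_OutF.kil_ne hil.symm]
      · rw [h2 m hm, Helper460_OutF.rr_ne hm]
    · rintro rfl
      refine ⟨?_, fun m hm => Helper460_OutF.rr_ne hm _⟩
      rw [Helper460_OutF.rr_self, map_commutatorElement, map_commutatorElement,
        Helper460_OutF.kil_ne hij.symm, Helper460_OutF.kil_ne hik.symm,
        Helper460_OutF.kil_ne hil.symm]
  refine ⟨fun hidx => ?_, ?_⟩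
  · by_contra hcon
    have hno : ∀ i j k l : Fin n, i ≠ j → i ≠ k → i ≠ l → j ≠ k → j ≠ l → k ≠ l →
        Helper460_OutF.rr i ⁅⁅FreeGroup.of j, FreeGroup.of k⁆, FreeGroup.of l⁆ ∉ N :=
      fun i j k l h1 h2 h3 h4 h5 h6 h7 =>
        hcon ⟨i, j, k, l, h1, h2, h3, h4, h5, h6, _, h7, (htr h1 h2 h3).2 rfl⟩
    have h0 : N.relIndex ⁅IAn n, IAn n⁆ ≠ 0 :=
      (inferInstance : (N.subgroupOf ⁅IAn n, IAn n⁆).FiniteIndex).index_ne_zero
    rcases Nat.lt_or_ge n 5 with h5 | h5
    · obtain rfl : n = 4 := by omega
      have h1 : N.relIndex ⁅IAn 4, IAn 4⁆ = 1 := by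
        have e : 2 ^ ((4 - 3) * (4 - 1).choose 3) = 2 := by decide
        rw [e] at hidx
        omega
      rw [Subgroup.relIndex_eq_one] at h1
      refine hno 0 1 2 3 (by decide) (by decide) (by decide) (by decide) (by decide) (by decide)
        (h1 ?_)
      exact H12.CSP.rr_comm_mem (Subgroup.commutator_mem_commutator (Subgroup.mem_top _)
        (Subgroup.mem_top _)) _
    · obtain ⟨m, rfl⟩ : ∃ m, n = m + 1 := ⟨n - 1, by omega⟩
      have h1 := H12.CSP.relIndex_ge3 (N := N) (0 : Fin (m + 1))
        (e := fun l => Fin.ofNat (m + 1) (l + 1)) (m := m)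
        (H12.CSP.exists_ne4 (by rw [Fintype.card_fin]; exact h5))
        (fun a ha b hb hab => by
          have h1 := congrArg Fin.val hab
          simp only [Fin.ofNat] at h1
          rw [Nat.mod_eq_of_lt (by omega), Nat.mod_eq_of_lt (by omega)] at h1
          omega) (fun a ha hab => by
          have h1 := congrArg Fin.val hab
          simp only [Fin.ofNat] at h1
          rw [Nat.mod_eq_of_lt (by omega)] at h1
          simp at h1)
        (fun a b c ha hb hc hab hac hbc => hno 0 a b c ha.symm hb.symm hc.symm hab hac hbc)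
      have h2 : N.relIndex ⁅IAn (m + 1), IAn (m + 1)⁆ =
        N.relIndex ⁅Helper460_OutF.IA (FreeGroup (Fin (m + 1))),
          Helper460_OutF.IA (FreeGroup (Fin (m + 1)))⁆ := rfl
      rw [h2] at hidx
      have h3 : (m + 1 - 3) * (m + 1 - 1).choose 3 = m.choose 3 + m * (m - 1).choose 3 := by
        obtain ⟨t, rfl⟩ : ∃ t, m = t + 3 := ⟨m - 3, by omega⟩
        have e1 := Nat.choose_mul_succ_eq (t + 2) 3
        have e2 : t + 2 + 1 - 3 = t := by omega
        rw [e2] at e1
        have e3 : t + 3 + 1 - 3 = t + 1 := by omega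
        have e4 : t + 3 + 1 - 1 = t + 3 := by omega
        have e5 : t + 3 - 1 = t + 2 := by omega
        rw [e3, e4, e5]
        have e6 : t + 2 + 1 = t + 3 := by omega
        rw [e6] at e1
        rw [mul_comm (t + 3) ((t + 2).choose 3), e1]
        ring
      rw [h3] at hidx
      omega
  · rintro ⟨i, j, k, l, h1, h2, h3, h4, h5, h6, φ, hφ, h7⟩
    have hc4 : 4 ≤ Fintype.card (Fin n) := by rw [Fintype.card_fin]; exact hn
    rw [htr h1 h2 h3] at h7
    subst h7
    have hK := H12.CSP.k3_mk hc4 hinn h1 h2 h3 h4 h5 h6 hφ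
    have hker : ∀ ψ : MulAut (FreeGroup (Fin n)),
        (∀ x, ψ x * x⁻¹ ∈ (⊤ : Subgroup (FreeGroup (Fin n))).lowerCentralSeries 3) → ψ ∈ N :=
      fun ψ hψ => (QuotientGroup.eq_one_iff _).1 (hK.kills hψ)
    refine ⟨?_, hker, ?_⟩
    · have := H12.CSP.relIndex_dvd hK
      rw [Fintype.card_fin] at this
      exact this
    · obtain ⟨K, hKc, hKf, hKN⟩ := TH610.CSP.pc_zero n (by omega) N hN hfi 3
        ⟨⊤, inferInstance, inferInstance, fun ψ _ hψ => hker ψ hψ⟩
      have h1 : ∀ ψ : MulAut (FreeGroup (Fin n)), (∀ x, ψ x * x⁻¹ ∈ K) → ψ ∈ N :=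
        fun ψ hψ => hKN ψ hψ (fun x => Subgroup.mem_top _)
      exact ⟨K, hKc, hKf, fun ψ hψ => TH610.CSP.outer N K hKc h1 hinn ψ hψ⟩

end Pool.Agent.Results.MP_181555_al.ClassThreeGap
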