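import Pool.Agent.H12.LIN.N7
import Pool.Agent.H12.LIN.P1

/-!
# Homomorphisms from `IA_n` to linear groups of degree at most `n - 2`

Let `n ≥ 4` and let `IA_n ≤ Aut (F_n)` be the group of the automorphisms acting trivially on the
abelianisation of `F_n`. A triangular family of length `m` in a group `H` consists of elements
`g_i`, `h_i`, `i < m`, such that `g_i` commutes with `h_j` for `i < j` and `g_i` does not commute
with `h_i`; it gives a strictly increasing chain of `m + 1` centralizers.

(1) If `H` has no triangular family of length `2 n - 4`, then every homomorphism from `IA_n` to `H`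
has abelian image. (2) In particular this holds for `H = GL_d (R)`, where `R` is any integral domain
and `d ≤ n - 2`; the image may be infinite and the characteristic is arbitrary. (3) There is a
homomorphism from `IA_n` to `GL_{n-1} (ℤ)` with nonabelian image, so the bound in (2) is sharp.
(4) A homomorphism from `IA_n` to `GL_d (ℂ)` with finite image and `d < 2 ^ (n - 2)` has abelian
image. (5) A subgroup of `IA_n` of index at most `2 ^ (n - 2)` contains `[IA_n, IA_n]`.
(6) Let `Γ` be a subgroup of finite index of `Aut (F_n)` containing the inner automorphisms, such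
that every element of `IA_n` outside `Γ` has a nontrivial image under some homomorphism from `IA_n`
to a group as in (1) (for example to `GL_{n-2} (R)`) or as in (4). Then `Γ` is a congruence
subgroup.

Steps of the proof. (a) Let `c` be the partial conjugation of `x_i` by `[x_j, x_k]`, let `u_l` be
the transvection of `x_l` by `[x_j, x_k]` and `v_l` the partial conjugation of `x_i` by `x_l`. The
pairs `(u_l, v_l)` for `l ≠ i, j, k`, `(v_j, v_k)`, `(v_k, v_j)` and `(v_l, u_l)` for `l ≠ i, j, k`
form a triangular family of length `2 n - 4` in `IA_n`, and if the images of the two elements of one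
of these pairs commute, then `c` is killed; so `c` and its conjugates under `Aut (F_n)` are killed.
(b) If the conjugates of `c` under `Aut (F_n)` are killed, the image of `IA_n` is abelian; the inner
automorphisms are not assumed to be killed. Indeed, the inner automorphisms by elements of
`[F_n, F_n]` have central images, and modulo these images the commutators of Magnus' generators are
killed; so the image has class at most two, and then the commutator relations of `IA_n` show that
the central elements left are trivial. The proof uses Magnus' theorem on the generators of `IA_n`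
(proved in `Pool.Agent.H12.SOL.M1`).
(c) For (3): the derivation of `F_n` with values in `ℤ ^ n`, twisted by the sign character of
`x_0`, and the induced action of `IA_n` on the kernel of the augmentation, a free abelian group of
rank `n - 1`. (d) For (6): the theorem on `[IA_n, IA_n]` and the generation of the congruence
subgroups of `SL_n (ℤ)` (Bass, Lazard, Serre, Mennicke), proved in Lean in `Helper460_CSP`.
-/

set_option autoImplicit false

namespace Pool.Agent.Results.MP_181555_al.LinearTorelliImages

open Pool.Agent
open scoped commutatorElement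

universe u

/-- The group `IA_n` of the automorphisms of `F_n` acting trivially on the abelianisation. -/
def IAn (n : ℕ) : Subgroup (MulAut (FreeGroup (Fin n))) where
  carrier := {φ | ∀ x, Abelianization.of (φ x) = Abelianization.of x}
  mul_mem' := fun {a b} ha hb x => (ha (b x)).trans (hb x)
  one_mem' := fun _ => rfl
  inv_mem' := fun {a} ha x => by
    have h := ha (a⁻¹ x)
    rw [MulAut.apply_inv_self] at h
    exact h.symm

/-- `H` has no triangular family of length `m`: if `g i` commutes with `h j` for all `i < j`, then
`g i` commutes with `h i` for some `i`. -/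
def NoTriangularFamily (m : ℕ) (H : Type u) [Group H] : Prop :=
  ∀ g h : Fin m → H, (∀ i j, i < j → g i * h j = h j * g i) → ∃ i, g i * h i = h i * g i

/-- Every homomorphism from `IA_n` to `H` has abelian image. -/
def AbelianImages (n : ℕ) (H : Type u) [Group H] : Prop :=
  ∀ (f : IAn n →* H) (a b : IAn n), f a * f b = f b * f a

/-- `Γ` is a congruence subgroup of `Out (F_n)` defined by a quotient of `F_n` which is nilpotent
of class at most two. -/
def IsClassTwoCongruence (n : ℕ) (Γ : Subgroup (MulAut (FreeGroup (Fin n)))) : Prop :=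
  ∃ K : Subgroup (FreeGroup (Fin n)), K.Characteristic ∧ K.FiniteIndex ∧
    (∀ x y z : FreeGroup (Fin n), ⁅⁅x, y⁆, z⁆ ∈ K) ∧
    ∀ ψ : MulAut (FreeGroup (Fin n)),
      (∃ g : FreeGroup (Fin n), ∀ x : FreeGroup (Fin n), ψ x * (g * x * g⁻¹)⁻¹ ∈ K) → ψ ∈ Γ

/-- Let `n ≥ 4`. (1) If a group `H` has no triangular family of length `2 n - 4`, then every
homomorphism from `IA_n` to `H` has abelian image. (2) For every integral domain `R` and
`d ≤ n - 2` every homomorphism from `IA_n` to `GL_d (R)` has abelian image. (3) This is false for
`GL_{n-1} (ℤ)`. (4) Every homomorphism with finite image from `IA_n` to `GL_d (ℂ)`,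
`d < 2 ^ (n - 2)`, has abelian image. (5) Every subgroup of `IA_n` of index at most `2 ^ (n - 2)`
contains `[IA_n, IA_n]`. (6) Let `Γ ≤ Aut (F_n)` be a subgroup of finite index containing the inner
automorphisms such that every element of `IA_n` outside `Γ` has a nontrivial image under a
homomorphism from `IA_n` to a group `H` as in (1), or under a homomorphism with finite image from
`IA_n` to `GL_d (ℂ)`, `d < 2 ^ (n - 2)`. Then `Γ` contains every automorphism acting as an inner
automorphism on `F_n / K`, for some characteristic subgroup `K` of finite index with `F_n / K`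
nilpotent of class at most two. -/
theorem result : ∀ n : ℕ, 4 ≤ n →
    (∀ (H : Type u) [Group H], NoTriangularFamily (2 * n - 4) H → AbelianImages n H) ∧
    (∀ (R : Type u) [CommRing R] [IsDomain R] (d : ℕ), d + 2 ≤ n →
      NoTriangularFamily (2 * n - 4) (Matrix.GeneralLinearGroup (Fin d) R) ∧
      AbelianImages n (Matrix.GeneralLinearGroup (Fin d) R)) ∧
    ¬ AbelianImages n (Matrix.GeneralLinearGroup (Fin (n - 1)) ℤ) ∧
    (∀ d : ℕ, d < 2 ^ (n - 2) → ∀ f : IAn n →* Matrix.GeneralLinearGroup (Fin d) ℂ,
      Finite f.range → ∀ a b, f a * f b = f b * f a) ∧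
    (∀ L : Subgroup (IAn n), L.index ≠ 0 → L.index ≤ 2 ^ (n - 2) →
      ∀ a b : IAn n, ⁅a, b⁆ ∈ L) ∧
    (∀ Γ : Subgroup (MulAut (FreeGroup (Fin n))), Γ.FiniteIndex →
      (∀ g : FreeGroup (Fin n), MulAut.conj g ∈ Γ) →
      (∀ x : IAn n, (x : MulAut (FreeGroup (Fin n))) ∉ Γ →
        (∃ (H : Type u) (_ : Group H), NoTriangularFamily (2 * n - 4) H ∧
          ∃ f : IAn n →* H, f x ≠ 1) ∨
        ∃ d : ℕ, d < 2 ^ (n - 2) ∧ ∃ f : IAn n →* Matrix.GeneralLinearGroup (Fin d) ℂ,
          Finite f.range ∧ f x ≠ 1) →
      IsClassTwoCongruence n Γ) := by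
  intro n hn
  have h4 : 4 ≤ Fintype.card (Fin n) := by rw [Fintype.card_fin]; exact hn
  have hcard : (2 * n - 4) + 4 ≤ 2 * Fintype.card (Fin n) := by rw [Fintype.card_fin]; omega
  have hGL : ∀ (R : Type u) [CommRing R] [IsDomain R] (d : ℕ), d + 2 ≤ n →
      NoTriangularFamily (2 * n - 4) (Matrix.GeneralLinearGroup (Fin d) R) := by
    intro R _ _ d hd
    exact H12.LIN.noTriang_GL R d (2 * n - 4) (by omega)
  have h1 : ∀ (H : Type u) [Group H], NoTriangularFamily (2 * n - 4) H → AbelianImages n H :=
    fun H _ hH f a b => H12.LIN.main h4 hcard hH f a b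
  refine ⟨h1, fun R _ _ d hd => ⟨hGL R d hd, h1 _ (hGL R d hd)⟩, ?_, ?_, ?_, ?_⟩
  · obtain ⟨k, rfl⟩ : ∃ k, n = k + 1 := ⟨n - 1, by omega⟩
    intro h
    obtain ⟨a, b, hab⟩ := H12.LIN.Prym.nonabelian (k := k) (by omega)
    exact hab (h H12.LIN.Prym.rep a b)
  · intro d hd f hf a b
    exact H12.LIN.abelian_complex hn hd f hf a b
  · intro L h0 hL a b
    exact H12.LIN.index_contains hn L h0 hL a b
  · intro Γ hfi hinn h
    refine H12.LIN.csp_of_kill (by omega) Γ hfi hinn ?_
    intro b i j k hij hik
    by_contra hcon
    have hz : b * Helper460_OutF.cc i ⁅FreeGroup.of j, FreeGroup.of k⁆ * b⁻¹ ∈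
        Helper460_OutF.IA (FreeGroup (Fin n)) :=
      (Helper460_OutF.IA_normal (FreeGroup (Fin n))).conj_mem _ (Helper460_OutF.cc_mem_IA _ _) b
    rcases h ⟨_, hz⟩ hcon with ⟨H, _, hH, f, hf⟩ | ⟨d, hd, f, hfin, hf⟩
    · apply hf
      have hMu : H12.LIN.Mu (H12.LIN.ext1 (ι := Fin n) f) := by
        intro a ha b hb
        rw [H12.LIN.ext1_of' _ ha, H12.LIN.ext1_of' _ hb, H12.LIN.ext1_of' _ (mul_mem ha hb),
          ← map_mul]
        rfl
      have := H12.LIN.kill_of_noTriang (hMu.tw b) hH hcard hij hik
      unfold H12.SOL.tw at this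
      rw [H12.LIN.ext1_of' _ hz] at this
      exact this
    · exact hf (H12.LIN.kill_of_noCube (H12.LIN.noCube_complex' hn hd) f
        (Helper460_CSP.fin_order_of_range f hfin) b hij hik hz)

end Pool.Agent.Results.MP_181555_al.LinearTorelliImages
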