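import Pool.Agent.H12.RA.Small
import Pool.Agent.H12.RA.Triang

set_option autoImplicit false

/-!
# The congruence subgroup property for recursively defined automorphisms

For a finite quotient `π` of `Out (F_n)`, the question is whether `ker ρ_K ⊆ ker π` for some
characteristic subgroup `K` of finite index. We show that for some `K` all elements of `ker ρ_K` which
belong to a large class are in `ker π`, for all bases of `F_n` at the same time. The class `Tri S` is
generated, under conjugation, composition with inner automorphisms, free products `α * β` and
extensions of `α` to one more letter by `x ↦ x^(±1) v`, by sets `S m` of automorphisms of `F_m` with the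
same property, for example by all automorphisms of the free groups of rank at most two (theorem of
Asada) and of the ranks in which the congruence subgroup property holds.

By the Kolchin theorem for `Out (F_n)` of Bestvina, Feighn and Handel (not used here) a polynomially
growing automorphism which acts trivially on the homology modulo three is represented by an upper
triangular map of a filtered graph; adding the edges one after the other, one sees that it belongs to
the class generated by the empty sets. So every finite quotient `π` of `Out (F_n)` kills all polynomially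
growing elements of `ker ρ_K`, for some `K`.

The proof uses Fox derivatives with values in the group ring of a finite quotient over the field with
three elements: if `h x ≡ a h` modulo a deep subgroup for a letter `x` and an element `a` of a free
factor `A`, then `h` is in `A L`, and if `a⁻¹ x^(±1) b ≡ x` for `a`, `b` in `A` and a letter `x` outside
`A`, then the sign is positive and `a` is in `L`. So an automorphism in the class which is the
conjugation by `h` modulo a deep subgroup is a product of deep automorphisms of the factors, of
automorphisms `x ↦ x v` with deep `v`, and of the conjugation by the deep element `h`.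
-/

namespace Pool.Agent.Results.MP_181555_al.RecursiveAutomorphisms

open Pool.Agent.H12.RA

/-- All automorphisms of `F m` if `m ≤ 2` or if the congruence subgroup property holds for
`Out (F m)`. -/
def Base (m : ℕ) : Set (MulAut (F m)) := {_φ | m ≤ 2 ∨ Q1 m}

/-- The same for the ranks less than `n`, and `m ≤ 2`. -/
def BaseLT (n m : ℕ) : Set (MulAut (F m)) := {_φ | m ≤ 2 ∨ (m < n ∧ Q1 m)}

/-- (1) Let `N` be a subgroup of finite index in `Aut (F n)` containing the inner automorphisms. There
is a characteristic subgroup `K` of finite index in `F n` such that `N` contains all automorphisms of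
the class `Tri Base` which act as an inner automorphism on the quotient by `K`.
(2) If the sets `S m` have the congruence property then so has the class `Tri S`.
(3) The set of all automorphisms of `F m` has the congruence property if `m ≤ 2` or if the question Q1 has
a positive answer for `m`.
(4) The triangular automorphisms are in the class generated by the empty sets.
(5) The question Q1 for `n` has a positive answer if and only if for every characteristic subgroup `K`
of finite index every normal subgroup of finite index `N` which contains the inner automorphisms and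
all automorphisms of the class `Tri (BaseLT n)` acting as an inner automorphism modulo `K`
contains all automorphisms acting as an inner automorphism modulo `K'`, for some characteristic
subgroup `K'` of finite index. -/
theorem result :
    (∀ (n : ℕ) (N : Subgroup (MulAut (F n))), N.FiniteIndex → (∀ g, MulAut.conj g ∈ N) →
      ∃ K : Subgroup (F n), K.Characteristic ∧ K.FiniteIndex ∧
        ∀ φ, Tri Base n φ → (∃ g, Cg K φ g) → φ ∈ N) ∧
    (∀ S : (m : ℕ) → Set (MulAut (F m)), (∀ m, Congr m (S m)) →
      ∀ n, Congr n {φ | Tri S n φ}) ∧
    (∀ m : ℕ, m ≤ 2 ∨ Q1 m → Congr m Set.univ) ∧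
    (∀ (n : ℕ) (φ : MulAut (F n)), Triangular φ → Tri (fun _ => ∅) n φ) ∧
    (∀ n : ℕ, Q1 n ↔ ∀ K : Subgroup (F n), K.Characteristic → K.FiniteIndex →
      ∀ N : Subgroup (MulAut (F n)), N.Normal → N.FiniteIndex → (∀ g, MulAut.conj g ∈ N) →
        (∀ φ, Tri (BaseLT n) n φ → (∃ g, Cg K φ g) → φ ∈ N) →
        ∃ K' : Subgroup (F n), K'.Characteristic ∧ K'.FiniteIndex ∧
          ∀ φ : MulAut (F n), (∃ g, Cg K' φ g) → φ ∈ N) := by
  have h3 : ∀ m : ℕ, m ≤ 2 ∨ Q1 m → Congr m Set.univ := by
    rintro m (hm | hm)
    · exact congr_le_two m hm
    · exact congr_q1 hm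
  have h4 : ∀ (p : ℕ → Prop), (∀ m, p m → m ≤ 2 ∨ Q1 m) → ∀ m, Congr m {_φ | p m} := by
    intro p hp m Γ hΓ
    by_cases hm : p m
    · obtain ⟨K, hK, hKf, h⟩ := h3 m (hp m hm) Γ hΓ
      exact ⟨K, hK, hKf, fun φ _ => h φ trivial⟩
    · exact ⟨⊤, inferInstance, inferInstance, fun φ hφ => absurd hφ hm⟩
  have h5 : ∀ (p : ℕ → Prop), (∀ m, p m → m ≤ 2 ∨ Q1 m) → ∀ (n : ℕ)
      (N : Subgroup (MulAut (F n))), N.FiniteIndex → (∀ g, MulAut.conj g ∈ N) →
      ∃ K : Subgroup (F n), K.Characteristic ∧ K.FiniteIndex ∧
        ∀ φ, Tri (fun m => {_φ | p m}) n φ → (∃ g, Cg K φ g) → φ ∈ N := by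
    intro p hp n N hN hI
    obtain ⟨K, hK, hKf, h⟩ := main _ (h4 p hp) n N hN
    refine ⟨K, hK, hKf, fun φ hφ ⟨g, hg⟩ => ?_⟩
    have h6 := N.mul_mem (hI g) (h φ hφ g hg)
    rwa [mul_inv_cancel_left] at h6
  refine ⟨fun n N => h5 (fun m => m ≤ 2 ∨ Q1 m) (fun _ h => h) n N, fun S hS n => main S hS n, h3,
    fun n φ => triangular_tri _ n φ, fun n => ⟨fun h K _ _ N hn hf hI _ => h N hn hf hI,
      fun h N hn hf hI => ?_⟩⟩
  obtain ⟨K, hK, hKf, h6⟩ := h5 (fun m => m ≤ 2 ∨ (m < n ∧ Q1 m))
    (fun m hm => hm.imp id And.right) n N hf hI
  exact h K hK hKf N hn hf hI h6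

end Pool.Agent.Results.MP_181555_al.RecursiveAutomorphisms
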