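import Pool.Agent.H4.CS.Main
import Pool.Agent.H4.CG.Vab

set_option autoImplicit false

/-!
# The congruence topology of `Out(F_n)` on virtually abelian subgroups

`Out G` is the group of outer automorphisms of a group `G`, and `rho K : Out G → Out (G ⧸ K)` is the
natural homomorphism, for a characteristic subgroup `K` of `G`. The congruence topology of `Out(F_n)` is
given by the kernels of the homomorphisms `rho K`, for the characteristic subgroups `K` of finite index.

We show that this topology induces the full profinite topology on every finitely generated virtually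
abelian subgroup `A` of `Out(F_n)`, and that `A` is closed in it. It suffices to take the subgroups `K`
with nilpotent quotient `F_n / K`.

Moreover, the congruence topology of `Aut(F_n)` induces the full profinite topology on the full preimage
`Â` of `A` in `Aut(F_n)` (for example on the groups `F_n ⋊ ℤ` of all mapping tori), and the congruence topology
of `Out(F_(n+m))`, for `n, m ≥ 1`, induces the full profinite topology on the image of `loops J Â`, the group of
all automorphisms of the free group on `Fin n ⊕ J` (where `J` has `m` elements) which restrict to an element of `Â`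
on the free factor on `Fin n` and map each letter `x j`, `j` in `J`, to `u * (x (σ j)) ^ (± 1) * v` with `u`, `v` in
this factor and a permutation `σ` of `J`. This image contains a copy of `Â`.

The proof. Let `V_c` be the lattice of the class functions `F_n → ℤ` of degree less than `c` (all iterated
differences of order `c` vanish). The group `Out(F_n)` acts on `V_c`; for a suitable characteristic
subgroup `K` of finite index with nilpotent quotient, depending on `c` and `m`, the elements of the kernel
of `rho K` act trivially on `V_c / m`. An outer automorphism which acts trivially on all `V_c` is trivial,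
and if it acts trivially on `V_c`, `c ≥ 2`, and one of its powers acts trivially on `V_{c+1}`, then it acts
trivially on `V_{c+1}`. Hence a finitely generated abelian subgroup of `Out(F_n)` acts faithfully on some
`V_c`. So its congruence topology is finer than the congruence topology of a commutative group of integral
matrices, which is the full profinite topology, by Chevalley's theorem on the units of number fields
(proved here using Kummer theory and Chebotarev's theorem) and an induction over the powers of the
nilradical. The step from `A` to its preimage uses that for all subgroups `U`, `W` of finite index of a nonabelian free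
group there is `K` such that all elements which centralize `U` modulo `K` are in `W` (`Pool/Agent/H4/CG/Tools`). The
step to `Out(F_(n+m))` is a theorem of the library.
-/

namespace Pool.Agent.Results.MP_181555_al.VirtuallyAbelianSubgroups

open Pool.Agent.H4.CS
open Pool.Agent.Q23.CS (loops)

/-- the preimage of `A` in the automorphism group -/
abbrev pre {G : Type} [Group G] (A : Subgroup (Out G)) : Subgroup (MulAut G) :=
  A.comap (QuotientGroup.mk' (Inn G))

/-- Let `A` be a subgroup of `Out(F_n)` which has a finitely generated abelian subgroup `A₀` of finite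
index.

(1) Every subgroup `B` of finite index of `A` contains `A ∩ ker ρ_K`, for some characteristic subgroup `K`
of finite index of `F_n` with nilpotent quotient `F_n / K`.

(2) Every outer automorphism `φ` which is not in `A` is separated from `A` in such a quotient: for some
characteristic subgroup `K` of finite index of `F_n` with nilpotent quotient `F_n / K`, `ρ_K(φ)` is not in
`ρ_K(A)`.

(3) Every subgroup `B` of finite index of the preimage `Â` of `A` in `Aut(F_n)` contains all elements of `Â` which act
trivially on `F_n / K`, for some characteristic subgroup `K` of finite index of `F_n`.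

(4) Let `n ≥ 1`, let `J` be a finite nonempty set and let `D` be the image of the group `loops J Â` in the group of
outer automorphisms of the free group on `Fin n ⊕ J`. Every subgroup `B` of finite index of `D` contains `D ∩ ker ρ_K`
for some characteristic subgroup `K` of finite index of this free group. -/
theorem result (n : ℕ) (A A₀ : Subgroup (Out (FreeGroup (Fin n)))) (hA : A₀ ≤ A)
    (hfi : A₀.relIndex A ≠ 0) (hab : ∀ a ∈ A₀, ∀ b ∈ A₀, a * b = b * a) (hfg : A₀.FG) :
    (∀ B : Subgroup (Out (FreeGroup (Fin n))), B ≤ A → B.relIndex A ≠ 0 →
      ∃ (K : Subgroup (FreeGroup (Fin n))) (_ : K.Characteristic),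
        K.FiniteIndex ∧ Group.IsNilpotent (FreeGroup (Fin n) ⧸ K) ∧ A ⊓ (rho K).ker ≤ B) ∧
    (∀ φ : Out (FreeGroup (Fin n)), φ ∉ A →
      ∃ (K : Subgroup (FreeGroup (Fin n))) (_ : K.Characteristic),
        K.FiniteIndex ∧ Group.IsNilpotent (FreeGroup (Fin n) ⧸ K) ∧
          rho K φ ∉ A.map (rho K)) ∧
    (∀ B : Subgroup (MulAut (FreeGroup (Fin n))), B ≤ pre A → B.relIndex (pre A) ≠ 0 →
      ∃ (K : Subgroup (FreeGroup (Fin n))) (_ : K.Characteristic),
        K.FiniteIndex ∧ pre A ⊓ (autMap K).ker ≤ B) ∧
    (1 ≤ n → ∀ (J : Type) [Finite J] [Nonempty J] (D : Subgroup (Out (FreeGroup (Fin n ⊕ J)))),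
      D = (loops J (pre A)).map (QuotientGroup.mk' (Inn (FreeGroup (Fin n ⊕ J)))) →
      ∀ B : Subgroup (Out (FreeGroup (Fin n ⊕ J))), B ≤ D → B.relIndex D ≠ 0 →
        ∃ (K : Subgroup (FreeGroup (Fin n ⊕ J))) (_ : K.Characteristic),
          K.FiniteIndex ∧ D ⊓ (rho K).ker ≤ B) := by
  obtain ⟨h1, h2⟩ := virtual (full n) (Kers_normal _) (Kers_nonempty _) (Kers_dir _) hA hfi hab hfg
  have h3 : Pool.Agent.Q23.CS.FullAut (pre A) := Pool.Agent.H4.CG.pre_full ⟨A₀, hA, hfi, hab, hfg⟩
  refine ⟨?_, ?_, ?_, ?_⟩
  · intro B hB hBi
    obtain ⟨_, ⟨K, hK, hKi, hKn, rfl⟩, h3⟩ := h1 B hB hBi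
    exact ⟨K, hK, hKi, hKn, h3⟩
  · intro φ hφ
    obtain ⟨_, ⟨K, hK, hKi, hKn, rfl⟩, h3⟩ := h2 φ hφ
    refine ⟨K, hK, hKi, hKn, ?_⟩
    rintro ⟨a, ha, hab⟩
    apply h3 a⁻¹ (A.inv_mem ha)
    rw [MonoidHom.mem_ker, map_mul, map_inv, hab, inv_mul_cancel]
  · intro B hB hBi
    exact Pool.Agent.H4.CG.FullAut.ker h3 B hB hBi
  · intro hn J _ _ D hD B hB hBi
    subst hD
    have hne : Nonempty (Fin n) := ⟨⟨0, hn⟩⟩
    have hin : ∀ g, MulAut.conj g ∈ pre A := by
      intro g
      have h4 : QuotientGroup.mk' (Inn (FreeGroup (Fin n))) (MulAut.conj g) = 1 :=
        (QuotientGroup.eq_one_iff _).2 ⟨g, rfl⟩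
      have h5 : QuotientGroup.mk' (Inn (FreeGroup (Fin n))) (MulAut.conj g) ∈ A := by
        rw [h4]
        exact one_mem A
      exact h5
    exact Pool.Agent.H4.CG.FullOut.ker
      (((Pool.Agent.Q23.CS.loops_main (J := J) (pre A)).2 hin).1 h3) B hBi

end Pool.Agent.Results.MP_181555_al.VirtuallyAbelianSubgroups
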